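import Mathlib

/-!
# A packing bound for the diameter of Cayley graphs of finite abelian groups

If `B` is a symmetric generating subset, containing `0`, of a finite abelian group `G`, then every
element of `G` is a sum of at most `7 |G| / |B|` elements of `B`.
-/

set_option autoImplicit false

namespace Q224.NAdic

open Finset Pointwise

variable {G : Type*} [AddCommGroup G] [DecidableEq G]

/-- The sums of `k` elements of `B`. -/
def S (B : Finset G) : ℕ → Finset G
  | 0 => {0}
  | k + 1 => S B k + B

theorem S_mono_succ {B : Finset G} (h0 : (0 : G) ∈ B) (k : ℕ) : S B k ⊆ S B (k + 1) := by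
  intro x hx
  have : x + 0 ∈ S B k + B := Finset.add_mem_add hx h0
  simpa [S] using this

theorem S_mono {B : Finset G} (h0 : (0 : G) ∈ B) {k l : ℕ} (h : k ≤ l) : S B k ⊆ S B l := by
  induction h with
  | refl => exact Finset.Subset.refl _
  | step _ ih => exact ih.trans (S_mono_succ h0 _)

theorem S_eq_univ_of_eq [Fintype G] {B : Finset G} (h0 : (0 : G) ∈ B)
    (hneg : ∀ b ∈ B, -b ∈ B)
    (hgen : AddSubgroup.closure (B : Set G) = ⊤) {k : ℕ} (h : S B (k + 1) = S B k) :
    S B k = Finset.univ := by
  have hadd : ∀ x ∈ S B k, ∀ b ∈ B, x + b ∈ S B k := by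
    intro x hx b hb
    rw [← h]
    exact Finset.add_mem_add hx hb
  have h0k : (0 : G) ∈ S B k := S_mono h0 (Nat.zero_le k) (by simp [S])
  -- every element `g` of the group satisfies `x + g ∈ S B k` for all `x ∈ S B k`
  have key : ∀ g : G, ∀ x ∈ S B k, x + g ∈ S B k := by
    intro g
    have hg : g ∈ AddSubgroup.closure (B : Set G) := by rw [hgen]; trivial
    have hg2 : (∀ x ∈ S B k, x + g ∈ S B k) ∧ (∀ x ∈ S B k, x + -g ∈ S B k) := by
      induction hg using AddSubgroup.closure_induction with
      | mem b hb => exact ⟨fun x hx => hadd x hx b hb, fun x hx => hadd x hx _ (hneg b hb)⟩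
      | zero => simp
      | add a b _ _ ha hb =>
        refine ⟨fun x hx => ?_, fun x hx => ?_⟩
        · rw [← add_assoc]
          exact hb.1 _ (ha.1 _ hx)
        · rw [neg_add, ← add_assoc]
          exact hb.2 _ (ha.2 _ hx)
      | neg a _ ha => exact ⟨ha.2, by simpa using ha.1⟩
    exact hg2.1
  ext g
  simp only [Finset.mem_univ, iff_true]
  simpa using key g 0 h0k

theorem growth [Fintype G] {B : Finset G} (h0 : (0 : G) ∈ B) (hneg : ∀ b ∈ B, -b ∈ B)
    (hgen : AddSubgroup.closure (B : Set G) = ⊤) (j : ℕ) :
    (∃ k ≤ 3 * j + 1, S B k = Finset.univ) ∨ j * B.card + 1 ≤ (S B (3 * j)).card := by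
  induction j with
  | zero => right; simp [S]
  | succ j ih =>
    rcases ih with ⟨k, hk, hk'⟩ | ih
    · exact Or.inl ⟨k, by omega, hk'⟩
    · by_cases h : S B (3 * j + 1 + 1) = S B (3 * j + 1)
      · exact Or.inl ⟨3 * j + 1, by omega, S_eq_univ_of_eq h0 hneg hgen h⟩
      · right
        obtain ⟨y, hy, hy'⟩ : ∃ y ∈ S B (3 * j + 1 + 1), y ∉ S B (3 * j + 1) := by
          by_contra hcon
          push Not at hcon
          exact h (Finset.Subset.antisymm hcon (S_mono_succ h0 _))
        have hsub : (S B (3 * j)) ∪ (({y} : Finset G) + B) ⊆ S B (3 * (j + 1)) := by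
          apply Finset.union_subset
          · exact S_mono h0 (by omega)
          · intro z hz
            obtain ⟨y', hy1, b, hb, rfl⟩ := Finset.mem_add.mp hz
            rw [Finset.mem_singleton] at hy1
            subst hy1
            exact Finset.add_mem_add hy hb
        have hdisj : Disjoint (S B (3 * j)) (({y} : Finset G) + B) := by
          rw [Finset.disjoint_left]
          intro z hz hz'
          obtain ⟨y', hy1, b, hb, rfl⟩ := Finset.mem_add.mp hz'
          rw [Finset.mem_singleton] at hy1
          subst hy1
          apply hy'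
          have : y' + b + -b ∈ S B (3 * j) + B := Finset.add_mem_add hz (hneg b hb)
          simpa [S] using this
        have hcard : (({y} : Finset G) + B).card = B.card := by
          rw [Finset.singleton_add, Finset.card_vadd_finset]
        have := Finset.card_le_card hsub
        rw [Finset.card_union_of_disjoint hdisj, hcard] at this
        have e : (j + 1) * B.card = j * B.card + B.card := by ring
        omega

theorem exists_cover [Fintype G] {B : Finset G} (h0 : (0 : G) ∈ B) (hneg : ∀ b ∈ B, -b ∈ B)
    (hgen : AddSubgroup.closure (B : Set G) = ⊤) :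
    ∃ k, k * B.card ≤ 7 * Fintype.card G ∧ S B k = Finset.univ := by
  have hB : 0 < B.card := Finset.card_pos.mpr ⟨0, h0⟩
  have hBG : B.card ≤ Fintype.card G := Finset.card_le_univ B
  rcases growth h0 hneg hgen (Fintype.card G / B.card + 1) with ⟨k, hk, hk'⟩ | h
  · refine ⟨k, ?_, hk'⟩
    have h1 : Fintype.card G / B.card * B.card ≤ Fintype.card G := Nat.div_mul_le_self _ _
    calc k * B.card ≤ (3 * (Fintype.card G / B.card + 1) + 1) * B.card :=
          Nat.mul_le_mul_right _ hk
      _ = 3 * (Fintype.card G / B.card * B.card) + 4 * B.card := by ring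
      _ ≤ 7 * Fintype.card G := by omega
  · exfalso
    have h2 : Fintype.card G < (Fintype.card G / B.card + 1) * B.card := by
      have := Nat.lt_div_mul_add (a := Fintype.card G) hB
      calc Fintype.card G < Fintype.card G / B.card * B.card + B.card := this
        _ = _ := by ring
    have h3 : (S B (3 * (Fintype.card G / B.card + 1))).card ≤ Fintype.card G :=
      Finset.card_le_univ _
    omega

end Q224.NAdic
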