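import Mathlib

/-!
# The `N`-adic complexity of finite sequences: definitions
-/

set_option autoImplicit false

namespace Q224.NAdic

/-- The `N`-adic integer `α = ∑ b_i N^i` of the infinite `N`-ary sequence `b` satisfies `g * α = f`
in the ring `ℤ_N = lim ℤ / N^m` of `N`-adic integers, i.e. `g * ∑_{i < m} b_i N^i ≡ f mod N^m` for
all `m`. For `g ≠ 0` this says `α = f / g`. -/
def IsValue (N : ℕ) (b : ℕ → Fin N) (f g : ℤ) : Prop :=
  ∀ m : ℕ, (N : ℤ) ^ m ∣ f - g * ∑ i ∈ Finset.range m, ((b i : ℕ) : ℤ) * (N : ℤ) ^ i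

/-- `x` is the (finite) `N`-adic complexity `λ_N(b) = log_N max(|f|, |g|)` of the infinite
sequence `b`, where `α = f / g` with `g > 0` and `gcd(f, g) = 1`. -/
def HasComplexity (N : ℕ) (b : ℕ → Fin N) (x : ℝ) : Prop :=
  ∃ f g : ℤ, 0 < g ∧ IsCoprime f g ∧ IsValue N b f g ∧ x = Real.logb N ((max |f| |g| : ℤ) : ℝ)

/-- The `N`-adic complexity of the finite sequence `a` of length `n`: the minimum of the `N`-adic
complexity over all infinite sequences `b` which extend `a`. (The infimum is attained, see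
`isLeast_finComplexity`.) -/
noncomputable def finComplexity (N n : ℕ) (a : Fin n → Fin N) : ℝ :=
  sInf {x : ℝ | ∃ b : ℕ → Fin N, (∀ i : Fin n, b i = a i) ∧ HasComplexity N b x}

/-- `E_n^fin`: the average of the `N`-adic complexity over the `N ^ n` sequences of length `n`. -/
noncomputable def avgFin (N n : ℕ) : ℝ :=
  (∑ a : Fin n → Fin N, finComplexity N n a) / (N : ℝ) ^ n

end Q224.NAdic
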