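import Pool.Agent.Q224.NAdic.Defs

/-!
# Extensions of finite sequences and congruences modulo `N ^ n`
-/

set_option autoImplicit false

namespace Q224.NAdic

open Finset

/-- The number with digits `a`. -/
def num {N n : ℕ} (a : Fin n → Fin N) : ℤ := ∑ i : Fin n, ((a i : ℕ) : ℤ) * (N : ℤ) ^ (i : ℕ)

theorem num_eq {N n : ℕ} (a : Fin n → Fin N) :
    num a = ((finFunctionFinEquiv a : Fin (N ^ n)) : ℕ) := by
  rw [num, finFunctionFinEquiv_apply]
  push_cast
  rfl

theorem num_nonneg {N n : ℕ} (a : Fin n → Fin N) : 0 ≤ num a := by rw [num_eq]; positivity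

theorem num_lt {N n : ℕ} (a : Fin n → Fin N) : num a < (N : ℤ) ^ n := by
  rw [num_eq]
  exact_mod_cast (finFunctionFinEquiv a).2

theorem num_injective {N n : ℕ} : Function.Injective (num : (Fin n → Fin N) → ℤ) := by
  intro a a' h
  rw [num_eq, num_eq] at h
  exact finFunctionFinEquiv.injective (Fin.ext (by exact_mod_cast h))

theorem num_eq_of_dvd {N n : ℕ} {a a' : Fin n → Fin N} (h : (N : ℤ) ^ n ∣ num a - num a') :
    a = a' := by
  apply num_injective
  have h1 := num_nonneg a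
  have h2 := num_nonneg a'
  have h3 := num_lt a
  have h4 := num_lt a'
  have := Int.eq_zero_of_abs_lt_dvd h (by rw [abs_lt]; constructor <;> linarith)
  linarith

section

variable {N : ℕ} (hN : 2 ≤ N) {f g : ℤ} (hg : IsCoprime g (N : ℤ))

/-- The residue of `f / g` modulo `N ^ m`. -/
noncomputable def res (N : ℕ) (f g : ℤ) (m : ℕ) : ℕ := ((f : ZMod (N ^ m)) * (g : ZMod (N ^ m))⁻¹).val

include hN in
theorem res_lt (m : ℕ) : res N f g m < N ^ m := by
  have : NeZero (N ^ m) := ⟨by positivity⟩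
  exact ZMod.val_lt _

include hN hg in
theorem dvd_res (m : ℕ) : (N : ℤ) ^ m ∣ f - g * (res N f g m : ℤ) := by
  have : NeZero (N ^ m) := ⟨by positivity⟩
  have hcast : ((N ^ m : ℕ) : ℤ) = (N : ℤ) ^ m := by push_cast; rfl
  rw [← hcast, ← ZMod.intCast_zmod_eq_zero_iff_dvd]
  push_cast
  rw [res, ZMod.natCast_zmod_val]
  have hu : (g : ZMod (N ^ m)) * (g : ZMod (N ^ m))⁻¹ = 1 := by
    apply ZMod.mul_inv_of_unit
    have h1 : IsCoprime g ((N ^ m : ℕ) : ℤ) := by rw [hcast]; exact hg.pow_right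
    obtain ⟨u, v, huv⟩ := h1
    refine IsUnit.of_mul_eq_one (u : ZMod (N ^ m)) ?_
    have := congrArg (Int.cast : ℤ → ZMod (N ^ m)) huv
    push_cast at this
    rw [show ((N : ZMod (N ^ m)) ^ m) = 0 by
      have := ZMod.natCast_self (N ^ m)
      push_cast at this
      exact this, mul_zero, add_zero] at this
    rw [mul_comm]
    exact this
  calc (f : ZMod (N ^ m)) - g * (f * (g : ZMod (N ^ m))⁻¹)
      = f - f * (g * (g : ZMod (N ^ m))⁻¹) := by ring
    _ = 0 := by rw [hu, mul_one, sub_self]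

include hN hg in
theorem res_succ_mod (m : ℕ) : res N f g (m + 1) % N ^ m = res N f g m := by
  have h1 := dvd_res hN hg (f := f) (m + 1)
  have h2 := dvd_res hN hg (f := f) m
  have h3 : (N : ℤ) ^ m ∣ f - g * (res N f g (m + 1) : ℤ) :=
    (pow_dvd_pow _ (Nat.le_succ m)).trans h1
  have h4 : (N : ℤ) ^ m ∣ g * ((res N f g (m + 1) : ℤ) - (res N f g m : ℤ)) := by
    have := dvd_sub h2 h3
    have e : f - g * (res N f g m : ℤ) - (f - g * (res N f g (m + 1) : ℤ)) =
      g * ((res N f g (m + 1) : ℤ) - (res N f g m : ℤ)) := by ring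
    rwa [e] at this
  have h5 : (N : ℤ) ^ m ∣ (res N f g (m + 1) : ℤ) - (res N f g m : ℤ) :=
    (hg.symm.pow_left).dvd_of_dvd_mul_left h4
  have h6 : res N f g m % N ^ m = res N f g (m + 1) % N ^ m := by
    have : ((N ^ m : ℕ) : ℤ) ∣ (res N f g (m + 1) : ℤ) - (res N f g m : ℤ) := by
      push_cast
      exact h5
    exact (Nat.modEq_iff_dvd.mpr this)
  rw [← h6, Nat.mod_eq_of_lt (res_lt hN m)]

/-- The digits of `f / g`. -/
noncomputable def dig (N : ℕ) (hN : 0 < N) (f g : ℤ) (i : ℕ) : Fin N :=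
  ⟨res N f g (i + 1) / N ^ i % N, Nat.mod_lt _ hN⟩

include hN hg in
theorem sum_dig (hN0 : 0 < N) (m : ℕ) :
    ∑ i ∈ range m, ((dig N hN0 f g i : ℕ) : ℤ) * (N : ℤ) ^ i = (res N f g m : ℤ) := by
  induction m with
  | zero =>
    have := res_lt hN (f := f) (g := g) 0
    simp only [pow_zero, Nat.lt_one_iff] at this
    simp [this]
  | succ m ih =>
    rw [Finset.sum_range_succ, ih]
    have h1 : res N f g (m + 1) / N ^ m < N := by
      rw [Nat.div_lt_iff_lt_mul (by positivity)]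
      have := res_lt hN (f := f) (g := g) (m + 1)
      rw [pow_succ] at this
      linarith [mul_comm N (N ^ m)]
    have h2 : (dig N hN0 f g m : ℕ) = res N f g (m + 1) / N ^ m := Nat.mod_eq_of_lt h1
    rw [h2]
    have h3 := res_succ_mod hN hg (f := f) m
    have h4 := Nat.div_add_mod (res N f g (m + 1)) (N ^ m)
    rw [h3] at h4
    have : ((N ^ m * (res N f g (m + 1) / N ^ m) + res N f g m : ℕ) : ℤ) = (res N f g (m + 1) : ℤ) := by
      exact_mod_cast h4
    push_cast at this ⊢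
    linarith

include hN hg in
theorem isValue_dig (hN0 : 0 < N) : IsValue N (dig N hN0 f g) f g := by
  intro m
  rw [sum_dig hN hg]
  exact dvd_res hN hg m

end

variable {N : ℕ}

theorem num_restrict {n : ℕ} (b : ℕ → Fin N) :
    num (fun i : Fin n => b i) = ∑ i ∈ range n, ((b i : ℕ) : ℤ) * (N : ℤ) ^ i := by
  rw [num, Finset.sum_range]

/-- Every pair `(f, g)` with `g` a unit modulo `N` and `f ≡ g * num a mod N ^ n` is a value of an
extension of `a`. -/
theorem exists_extension (hN : 2 ≤ N) {n : ℕ} (a : Fin n → Fin N) {f g : ℤ}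
    (hg : IsCoprime g (N : ℤ)) (h : (N : ℤ) ^ n ∣ f - g * num a) :
    ∃ b : ℕ → Fin N, (∀ i : Fin n, b i = a i) ∧ IsValue N b f g := by
  have hN0 : 0 < N := by omega
  refine ⟨dig N hN0 f g, ?_, isValue_dig hN hg hN0⟩
  have h1 := isValue_dig hN hg (f := f) hN0 n
  rw [← num_restrict] at h1
  have h2 : (N : ℤ) ^ n ∣ g * (num (fun i : Fin n => dig N hN0 f g i) - num a) := by
    have := dvd_sub h h1
    have e : f - g * num a - (f - g * num fun i : Fin n => dig N hN0 f g i) =
      g * ((num fun i : Fin n => dig N hN0 f g i) - num a) := by ring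
    rwa [e] at this
  have h3 := (hg.symm.pow_left).dvd_of_dvd_mul_left h2
  have h4 := num_eq_of_dvd h3
  intro i
  exact congrFun h4 i

theorem isCoprime_of_isValue {b : ℕ → Fin N} {f g : ℤ} (h : IsValue N b f g)
    (hc : IsCoprime f g) : IsCoprime g (N : ℤ) := by
  have h1 := h 1
  simp only [pow_one, Finset.range_one, Finset.sum_singleton, pow_zero, mul_one] at h1
  obtain ⟨k, hk⟩ := h1
  have hf : f = g * ((b 0 : ℕ) : ℤ) + N * k := by linarith
  rw [hf] at hc
  have h2 : IsCoprime ((N : ℤ) * k) g := by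
    have := hc
    rwa [IsCoprime.mul_add_left_left_iff] at this
  exact (h2.of_mul_left_left).symm

/-- The values `max(|f|, |g|)` of the extensions of `a`. -/
def Ks {n : ℕ} (a : Fin n → Fin N) : Set ℕ :=
  {k | ∃ f g : ℤ, 0 < g ∧ IsCoprime f g ∧ IsCoprime g (N : ℤ) ∧ (N : ℤ) ^ n ∣ f - g * num a ∧
    (k : ℤ) = max |f| |g|}

theorem exists_mem_Ks {n : ℕ} (a : Fin n → Fin N) {f g : ℤ}
    (hg0 : g ≠ 0) (hg : IsCoprime g (N : ℤ)) (h : (N : ℤ) ^ n ∣ f - g * num a) :
    ∃ k ∈ Ks a, (k : ℤ) ≤ max |f| |g| := by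
  -- first the case `0 < g`
  have key : ∀ f g : ℤ, 0 < g → IsCoprime g (N : ℤ) → (N : ℤ) ^ n ∣ f - g * num a →
      ∃ k ∈ Ks a, (k : ℤ) ≤ max |f| |g| := by
    intro f g hg0 hg h
    have hc0 : 0 < Int.gcd f g := Int.gcd_pos_of_ne_zero_right f hg0.ne'
    obtain ⟨f', hf'⟩ : (Int.gcd f g : ℤ) ∣ f := Int.gcd_dvd_left ..
    obtain ⟨g', hg'⟩ : (Int.gcd f g : ℤ) ∣ g := Int.gcd_dvd_right ..
    have hc0' : (0 : ℤ) < Int.gcd f g := by exact_mod_cast hc0
    set c : ℤ := (Int.gcd f g : ℤ) with hc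
    have hg'0 : 0 < g' := by
      by_contra hcon
      push Not at hcon
      have : g ≤ 0 := by rw [hg']; exact mul_nonpos_of_nonneg_of_nonpos hc0'.le hcon
      omega
    have hcop : IsCoprime f' g' := by
      have h1 := Int.gcd_eq_gcd_ab f g
      rw [← hc] at h1
      refine ⟨Int.gcdA f g, Int.gcdB f g, ?_⟩
      have h2 : c * (Int.gcdA f g * f' + Int.gcdB f g * g') = c * 1 := by
        calc c * (Int.gcdA f g * f' + Int.gcdB f g * g')
            = (c * f') * Int.gcdA f g + (c * g') * Int.gcdB f g := by ring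
          _ = c := by rw [← hf', ← hg']; exact h1.symm
          _ = c * 1 := by ring
      exact mul_left_cancel₀ hc0'.ne' h2
    have hcN : IsCoprime c (N : ℤ) := by
      rw [hg'] at hg
      exact hg.of_mul_left_left
    have hg'N : IsCoprime g' (N : ℤ) := by
      rw [hg'] at hg
      exact hg.of_mul_left_right
    have hdvd : (N : ℤ) ^ n ∣ f' - g' * num a := by
      apply (hcN.symm.pow_left (m := n)).dvd_of_dvd_mul_left
      have e : c * (f' - g' * num a) = f - g * num a := by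
        rw [mul_sub, ← hf', ← mul_assoc, ← hg']
      rwa [e]
    refine ⟨(max |f'| |g'|).toNat, ⟨f', g', hg'0, hcop, hg'N, hdvd, ?_⟩, ?_⟩
    · exact Int.toNat_of_nonneg (le_max_of_le_left (abs_nonneg _))
    · rw [Int.toNat_of_nonneg (le_max_of_le_left (abs_nonneg _))]
      have h1 : |f'| ≤ |f| := by
        rw [hf', abs_mul]
        have : 1 ≤ |c| := Int.one_le_abs hc0'.ne'
        nlinarith [abs_nonneg f']
      have h2 : |g'| ≤ |g| := by
        rw [hg', abs_mul]
        have : 1 ≤ |c| := Int.one_le_abs hc0'.ne'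
        nlinarith [abs_nonneg g']
      exact max_le_max h1 h2
  rcases lt_or_gt_of_ne hg0 with hneg | hpos
  · have := key (-f) (-g) (by omega) hg.neg_left (by
      have e : -f - -g * num a = -(f - g * num a) := by ring
      rw [e]
      exact (dvd_neg).mpr h)
    simpa using this
  · exact key f g hpos hg h

theorem Ks_pos {n : ℕ} (a : Fin n → Fin N) {k : ℕ} (hk : k ∈ Ks a) : 1 ≤ k := by
  obtain ⟨f, g, hg, -, -, -, h⟩ := hk
  have : (1 : ℤ) ≤ max |f| |g| := le_max_of_le_right (Int.one_le_abs hg.ne')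
  omega

theorem Ks_nonempty {n : ℕ} (a : Fin n → Fin N) : (Ks a).Nonempty := by
  obtain ⟨k, hk, -⟩ := exists_mem_Ks a (f := num a) (g := 1) one_ne_zero isCoprime_one_left (by simp)
  exact ⟨k, hk⟩

/-- The least value of `max(|f|, |g|)`. -/
noncomputable def M {n : ℕ} (a : Fin n → Fin N) : ℕ := sInf (Ks a)

theorem M_mem {n : ℕ} (a : Fin n → Fin N) : M a ∈ Ks a := Nat.sInf_mem (Ks_nonempty a)

theorem one_le_M {n : ℕ} (a : Fin n → Fin N) : 1 ≤ M a := Ks_pos a (M_mem a)

theorem M_le {n : ℕ} (a : Fin n → Fin N) {f g : ℤ}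
    (hg0 : g ≠ 0) (hg : IsCoprime g (N : ℤ)) (h : (N : ℤ) ^ n ∣ f - g * num a) :
    (M a : ℤ) ≤ max |f| |g| := by
  obtain ⟨k, hk, hk'⟩ := exists_mem_Ks a hg0 hg h
  have : M a ≤ k := Nat.sInf_le hk
  exact le_trans (by exact_mod_cast this) hk'

theorem isLeast_logb_M (hN : 2 ≤ N) {n : ℕ} (a : Fin n → Fin N) :
    IsLeast {x : ℝ | ∃ b : ℕ → Fin N, (∀ i : Fin n, b i = a i) ∧ HasComplexity N b x}
      (Real.logb N (M a)) := by
  constructor
  · obtain ⟨f, g, hg0, hc, hg, h, hk⟩ := M_mem a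
    obtain ⟨b, hb, hb'⟩ := exists_extension hN a hg h
    refine ⟨b, hb, f, g, hg0, hc, hb', ?_⟩
    rw [← hk]
    norm_cast
  · rintro x ⟨b, hb, f, g, hg0, hc, hv, rfl⟩
    have hg := isCoprime_of_isValue hv hc
    have h1 : (N : ℤ) ^ n ∣ f - g * num a := by
      have := hv n
      rw [← num_restrict] at this
      have e : (fun i : Fin n => b i) = a := funext hb
      rwa [e] at this
    have h2 := M_le a hg0.ne' hg h1
    apply Real.logb_le_logb_of_le
    · exact_mod_cast (by omega : 1 < N)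
    · exact_mod_cast one_le_M a
    · exact_mod_cast h2

theorem isLeast_finComplexity (hN : 2 ≤ N) {n : ℕ} (a : Fin n → Fin N) :
    IsLeast {x : ℝ | ∃ b : ℕ → Fin N, (∀ i : Fin n, b i = a i) ∧ HasComplexity N b x}
      (finComplexity N n a) := by
  rw [finComplexity, (isLeast_logb_M hN a).csInf_eq]
  exact isLeast_logb_M hN a

theorem finComplexity_eq (hN : 2 ≤ N) {n : ℕ} (a : Fin n → Fin N) :
    finComplexity N n a = Real.logb N (M a) := by
  rw [finComplexity, (isLeast_logb_M hN a).csInf_eq]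

end Q224.NAdic
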