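import Mathlib

/-!
# Sums of logarithms and counting functions
-/

set_option autoImplicit false

namespace Q224.NAdic

open Finset

theorem log_succ_sub_log (X : ℕ) (hX : 1 ≤ X) :
    Real.log ((X + 1 : ℕ) : ℝ) - Real.log X ≤ 1 / (X : ℝ) := by
  have hX' : (0 : ℝ) < X := by exact_mod_cast hX
  rw [← Real.log_div (by positivity) hX'.ne']
  have := Real.log_le_sub_one_of_pos (x := ((X + 1 : ℕ) : ℝ) / X) (by positivity)
  refine this.trans ?_
  push_cast
  rw [add_div, div_self hX'.ne']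
  linarith

theorem log_sub_log_le (M : ℕ) (hM : 1 ≤ M) (X : ℕ) (hX : 1 ≤ X) :
    Real.log X - Real.log M ≤ ∑ T ∈ Ico 1 X, if M ≤ T then 1 / (T : ℝ) else 0 := by
  induction X, hX using Nat.le_induction with
  | base =>
    simp only [Nat.cast_one, Real.log_one, zero_sub, Ico_self, sum_empty, Left.neg_nonpos_iff]
    exact Real.log_nonneg (by exact_mod_cast hM)
  | succ X hX ih =>
    rw [Finset.sum_Ico_succ_top hX]
    have hX' : (0 : ℝ) < X := by exact_mod_cast hX
    by_cases h : M ≤ X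
    · rw [if_pos h]
      have := log_succ_sub_log X hX
      linarith
    · rw [if_neg h, add_zero]
      have h1 : Real.log ((X + 1 : ℕ) : ℝ) ≤ Real.log M := by
        apply Real.log_le_log (by positivity)
        exact_mod_cast (by omega : X + 1 ≤ M)
      have h2 : 0 ≤ ∑ T ∈ Ico 1 X, if M ≤ T then 1 / (T : ℝ) else 0 := by
        apply Finset.sum_nonneg
        intro T _
        split_ifs <;> positivity
      linarith

/-- Summation: if few of the `M i` are small, then the sum of the `log M i` is large. -/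
theorem sum_log_ge {ι : Type*} (s : Finset ι) (M : ι → ℕ) (hM : ∀ i ∈ s, 1 ≤ M i) (X : ℕ)
    (hX : 1 ≤ X) (c : ℕ → ℝ)
    (hc : ∀ T ∈ Ico 1 X, ((s.filter (fun i => M i ≤ T)).card : ℝ) ≤ c T) :
    ∑ i ∈ s, (Real.log X - Real.log (M i)) ≤ ∑ T ∈ Ico 1 X, c T / T := by
  calc ∑ i ∈ s, (Real.log X - Real.log (M i))
      ≤ ∑ i ∈ s, ∑ T ∈ Ico 1 X, (if M i ≤ T then 1 / (T : ℝ) else 0) :=
        Finset.sum_le_sum fun i hi => log_sub_log_le (M i) (hM i hi) X hX
    _ = ∑ T ∈ Ico 1 X, ∑ i ∈ s, (if M i ≤ T then 1 / (T : ℝ) else 0) := Finset.sum_comm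
    _ ≤ ∑ T ∈ Ico 1 X, c T / T := by
        apply Finset.sum_le_sum
        intro T hT
        rw [← Finset.sum_filter, Finset.sum_const, nsmul_eq_mul, mul_one_div]
        exact div_le_div_of_nonneg_right (hc T hT) (Nat.cast_nonneg T)

end Q224.NAdic
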