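import Pool.Agent.Q224.NAdic.Link
import Pool.Agent.Q224.NAdic.LogSum

/-!
# The lower bound
-/

set_option autoImplicit false

namespace Q224.NAdic

open Finset

variable {N : ℕ}

theorem card_M_le (n T : ℕ) :
    ((univ : Finset (Fin n → Fin N)).filter (fun a => M a ≤ T)).card ≤ (2 * T + 1) * T := by
  classical
  have hex : ∀ a : Fin n → Fin N, ∃ p : ℤ × ℤ, 0 < p.2 ∧ IsCoprime p.2 (N : ℤ) ∧
      (N : ℤ) ^ n ∣ p.1 - p.2 * num a ∧ ((M a : ℕ) : ℤ) = max |p.1| |p.2| := by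
    intro a
    obtain ⟨f, g, hg0, -, hg, h, hk⟩ := M_mem a
    exact ⟨(f, g), hg0, hg, h, hk⟩
  choose p hp0 hp1 hp2 hp3 using hex
  have hinj : Set.InjOn p ((univ : Finset (Fin n → Fin N)).filter (fun a => M a ≤ T)) := by
    intro a _ a' _ h
    apply num_eq_of_dvd
    have h1 := hp2 a
    have h2 := hp2 a'
    rw [← h] at h2
    have h3 := dvd_sub h2 h1
    have e : (p a).1 - (p a).2 * num a' - ((p a).1 - (p a).2 * num a) =
      (p a).2 * (num a - num a') := by ring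
    rw [e] at h3
    exact ((hp1 a).symm.pow_left).dvd_of_dvd_mul_left h3
  have hmaps : ∀ a ∈ (univ : Finset (Fin n → Fin N)).filter (fun a => M a ≤ T),
      p a ∈ (Icc (-(T : ℤ)) T) ×ˢ (Icc (1 : ℤ) T) := by
    intro a ha
    rw [Finset.mem_filter] at ha
    have h1 : max |(p a).1| |(p a).2| ≤ (T : ℤ) := by rw [← hp3]; exact_mod_cast ha.2
    rw [Finset.mem_product, Finset.mem_Icc, Finset.mem_Icc]
    have h2 := abs_le.mp (le_trans (le_max_left _ _) h1)
    have h3 := abs_le.mp (le_trans (le_max_right _ _) h1)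
    exact ⟨h2, by have := hp0 a; omega, h3.2⟩
  have := Finset.card_le_card_of_injOn p hmaps hinj
  rw [Finset.card_product, Int.card_Icc, Int.card_Icc] at this
  have e1 : ((T : ℤ) + 1 - -(T : ℤ)).toNat = 2 * T + 1 := by omega
  have e2 : ((T : ℤ) + 1 - 1).toNat = T := by omega
  rwa [e1, e2] at this

theorem sqrt_bound (q : ℕ) (hq : 1 ≤ q) :
    1 ≤ Nat.sqrt q ∧ (Real.log q) / 2 - Real.log 2 ≤ Real.log (Nat.sqrt q) := by
  have h1 : 1 ≤ Nat.sqrt q := Nat.le_sqrt.mpr (by omega)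
  refine ⟨h1, ?_⟩
  have h2 : q < (Nat.sqrt q + 1) * (Nat.sqrt q + 1) := Nat.lt_succ_sqrt q
  have h3 : q ≤ (2 * Nat.sqrt q) ^ 2 := by nlinarith
  have hX : (0 : ℝ) < Nat.sqrt q := by exact_mod_cast h1
  have h4 : Real.log q ≤ 2 * (Real.log 2 + Real.log (Nat.sqrt q)) := by
    have h5 : Real.log (q : ℝ) ≤ Real.log (((2 * Nat.sqrt q) ^ 2 : ℕ) : ℝ) := by
      apply Real.log_le_log (by exact_mod_cast hq)
      exact_mod_cast h3
    refine h5.trans (le_of_eq ?_)
    push_cast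
    rw [Real.log_pow, Real.log_mul two_ne_zero hX.ne']
    norm_num
  linarith

theorem sum_log_M_ge (hN : 2 ≤ N) (n : ℕ) :
    (N : ℝ) ^ n * ((n : ℝ) * Real.log N / 2 - Real.log 2 - 3) ≤
      ∑ a : Fin n → Fin N, Real.log (M a) := by
  have hq : 1 ≤ N ^ n := Nat.one_le_pow _ _ (by omega)
  obtain ⟨hX, hlog⟩ := sqrt_bound (N ^ n) hq
  set X := Nat.sqrt (N ^ n) with hXdef
  have h1 := sum_log_ge (univ : Finset (Fin n → Fin N)) M (fun a _ => one_le_M a) X hX
    (fun T => 3 * (T : ℝ) ^ 2) (by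
      intro T hT
      rw [Finset.mem_Ico] at hT
      have h2 := card_M_le (N := N) n T
      have h3 : (2 * T + 1) * T ≤ 3 * T ^ 2 := by nlinarith
      exact_mod_cast h2.trans h3)
  have h2 : ∑ T ∈ Ico 1 X, 3 * (T : ℝ) ^ 2 / T ≤ 3 * (N : ℝ) ^ n := by
    calc ∑ T ∈ Ico 1 X, 3 * (T : ℝ) ^ 2 / T ≤ ∑ T ∈ Ico 1 X, 3 * (X : ℝ) := by
          apply Finset.sum_le_sum
          intro T hT
          rw [Finset.mem_Ico] at hT
          have hT0 : (0 : ℝ) < T := by exact_mod_cast hT.1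
          have hTX : (T : ℝ) ≤ X := by exact_mod_cast hT.2.le
          rw [div_le_iff₀ hT0]
          nlinarith
      _ = ((X - 1 : ℕ) : ℝ) * (3 * X) := by rw [Finset.sum_const, Nat.card_Ico, nsmul_eq_mul]
      _ ≤ (X : ℝ) * (3 * X) := by
          apply mul_le_mul_of_nonneg_right _ (by positivity)
          exact_mod_cast Nat.sub_le X 1
      _ = 3 * ((X * X : ℕ) : ℝ) := by push_cast; ring
      _ ≤ 3 * ((N ^ n : ℕ) : ℝ) := by
          apply mul_le_mul_of_nonneg_left _ (by norm_num)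
          exact_mod_cast Nat.sqrt_le (N ^ n)
      _ = 3 * (N : ℝ) ^ n := by push_cast; ring
  rw [Finset.sum_sub_distrib, Finset.sum_const, Finset.card_univ, Fintype.card_fun,
    Fintype.card_fin, Fintype.card_fin, nsmul_eq_mul] at h1
  have hlog2 : Real.log ((N ^ n : ℕ) : ℝ) = n * Real.log N := by
    push_cast
    rw [Real.log_pow]
  rw [hlog2] at hlog
  have hq' : (0 : ℝ) ≤ (N : ℝ) ^ n := by positivity
  have h3 := mul_le_mul_of_nonneg_left hlog hq'
  push_cast at h1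
  nlinarith

end Q224.NAdic
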