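import Pool.Agent.Q224.NAdic.Cover
import Mathlib

/-!
# The covering argument
-/

set_option autoImplicit false

namespace Q224.NAdic

open Finset

/-- There is a short vector `(f, h)` with `f ≡ N h A mod q`. -/
def Bad (N q : ℕ) (A : ℤ) (b : ℕ) : Prop :=
  ∃ f h : ℤ, (f ≠ 0 ∨ h ≠ 0) ∧ |f| ≤ 2 * (N * b) ∧ |h| ≤ 2 * b ∧ (q : ℤ) ∣ f - N * h * A

/-- The homomorphism `(f, h) ↦ f - N h A mod q`. -/
def hom (N q : ℕ) (A : ℤ) : ℤ × ℤ →+ ZMod q where
  toFun p := ((p.1 - N * p.2 * A : ℤ) : ZMod q)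
  map_zero' := by simp
  map_add' p p' := by push_cast [Prod.fst_add, Prod.snd_add]; ring

theorem hom_apply (N q : ℕ) (A : ℤ) (p : ℤ × ℤ) : hom N q A p = ((p.1 - N * p.2 * A : ℤ) : ZMod q) :=
  rfl

/-- The box. -/
noncomputable def Box (N b k : ℕ) : Finset (ℤ × ℤ) := Icc (-((k * (N * b) : ℕ) : ℤ)) (k * (N * b) : ℕ) ×ˢ
  Icc (-((k * b : ℕ) : ℤ)) (k * b : ℕ)

theorem mem_Box {N b k : ℕ} {p : ℤ × ℤ} :
    p ∈ Box N b k ↔ |p.1| ≤ (k * (N * b) : ℕ) ∧ |p.2| ≤ (k * b : ℕ) := by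
  rw [Box, Finset.mem_product, Finset.mem_Icc, Finset.mem_Icc, abs_le, abs_le]

theorem card_Box (N b : ℕ) : (Box N b 1).card = (2 * (N * b) + 1) * (2 * b + 1) := by
  rw [Box, Finset.card_product, Int.card_Icc, Int.card_Icc]
  congr 1 <;> omega

theorem mem_S_imp {N q : ℕ} (A : ℤ) (b : ℕ) (k : ℕ) (x : ZMod q)
    (hx : x ∈ S ((Box N b 1).image (hom N q A)) k) : ∃ p ∈ Box N b k, hom N q A p = x := by
  induction k generalizing x with
  | zero =>
    simp only [S, Finset.mem_singleton] at hx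
    exact ⟨0, by simp [mem_Box], by simp [hx]⟩
  | succ k ih =>
    obtain ⟨y, hy, z, hz, rfl⟩ := Finset.mem_add.mp hx
    obtain ⟨p, hp, rfl⟩ := ih y hy
    obtain ⟨p', hp', rfl⟩ := Finset.mem_image.mp hz
    refine ⟨p + p', ?_, map_add _ _ _⟩
    rw [mem_Box] at *
    have h1 := abs_add_le p.1 p'.1
    have h2 := abs_add_le p.2 p'.2
    push_cast at *
    constructor
    · calc |p.1 + p'.1| ≤ |p.1| + |p'.1| := h1
        _ ≤ _ := by nlinarith [hp.1, hp'.1]
    · calc |p.2 + p'.2| ≤ |p.2| + |p'.2| := h2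
        _ ≤ _ := by nlinarith [hp.2, hp'.2]

theorem cover {N n : ℕ} (hN : 2 ≤ N) {A : ℤ} {b : ℕ} (hb : 1 ≤ b) (hbq : b ≤ N ^ n)
    (h : ¬ Bad N (N ^ n) A b) :
    ∃ f g : ℤ, g ≠ 0 ∧ IsCoprime g (N : ℤ) ∧ (N : ℤ) ^ n ∣ f - g * A ∧
      (b : ℤ) * max |f| |g| ≤ 3 * (N : ℤ) ^ n := by
  have : NeZero (N ^ n) := ⟨by positivity⟩
  set q := N ^ n with hq
  set B : Finset (ZMod q) := (Box N b 1).image (hom N q A) with hB
  have hcast : ((q : ℕ) : ℤ) = (N : ℤ) ^ n := by rw [hq]; push_cast; rfl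
  -- injectivity on the box
  have hinj : Set.InjOn (hom N q A) (Box N b 1 : Set (ℤ × ℤ)) := by
    intro p hp p' hp' he
    rw [Finset.mem_coe, mem_Box] at hp hp'
    by_contra hne
    apply h
    refine ⟨p.1 - p'.1, p.2 - p'.2, ?_, ?_, ?_, ?_⟩
    · by_contra hcon
      push Not at hcon
      exact hne (Prod.ext (by linarith [hcon.1]) (by linarith [hcon.2]))
    · have := abs_sub p.1 p'.1
      push_cast at *
      linarith [hp.1, hp'.1]
    · have := abs_sub p.2 p'.2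
      push_cast at *
      linarith [hp.2, hp'.2]
    · rw [← ZMod.intCast_zmod_eq_zero_iff_dvd]
      have e : p.1 - p'.1 - N * (p.2 - p'.2) * A = (p.1 - N * p.2 * A) - (p'.1 - N * p'.2 * A) := by
        ring
      rw [e, Int.cast_sub, sub_eq_zero]
      exact he
  have hcard : B.card = (2 * (N * b) + 1) * (2 * b + 1) := by
    rw [hB, Finset.card_image_of_injOn hinj, card_Box]
  have h0 : (0 : ZMod q) ∈ B := Finset.mem_image.mpr ⟨0, by simp [mem_Box]; positivity, map_zero _⟩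
  have hneg : ∀ x ∈ B, -x ∈ B := by
    intro x hx
    obtain ⟨p, hp, rfl⟩ := Finset.mem_image.mp hx
    refine Finset.mem_image.mpr ⟨-p, ?_, map_neg _ _⟩
    rw [mem_Box] at *
    simpa using hp
  have hgen : AddSubgroup.closure (B : Set (ZMod q)) = ⊤ := by
    rw [eq_top_iff]
    intro x _
    have h1 : (1 : ZMod q) ∈ B := by
      refine Finset.mem_image.mpr ⟨(1, 0), ?_, by simp [hom_apply]⟩
      rw [mem_Box]
      have : 1 ≤ N * b := Nat.one_le_iff_ne_zero.mpr (by positivity)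
      constructor
      · simp only [abs_one, one_mul]
        exact_mod_cast this
      · simp
    have h2 : ((x.val : ℕ) • (1 : ZMod q)) ∈ AddSubgroup.closure (B : Set (ZMod q)) :=
      AddSubgroup.nsmul_mem _ (AddSubgroup.subset_closure h1) _
    rw [nsmul_eq_mul, mul_one, ZMod.natCast_zmod_val] at h2
    exact h2
  obtain ⟨k, hk, hk'⟩ := exists_cover h0 hneg hgen
  rw [ZMod.card, hcard] at hk
  have hA : ((A : ℤ) : ZMod q) ∈ S B k := by rw [hk']; exact Finset.mem_univ _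
  obtain ⟨p, hp, hp'⟩ := mem_S_imp A b k _ hA
  rw [mem_Box] at hp
  rw [hom_apply] at hp'
  refine ⟨p.1, 1 + N * p.2, ?_, ?_, ?_, ?_⟩
  · intro hz
    have h1 : (N : ℤ) ∣ 1 := ⟨-p.2, by linarith⟩
    have h2 := Int.le_of_dvd one_pos h1
    omega
  · exact ⟨1, -p.2, by ring⟩
  · rw [← hcast, ← ZMod.intCast_zmod_eq_zero_iff_dvd]
    have e : p.1 - (1 + N * p.2) * A = (p.1 - N * p.2 * A) - A := by ring
    rw [e, Int.cast_sub, hp', sub_self]
  · rw [← hcast]
    have hk2 : 4 * (k * (N * b * b)) ≤ 7 * q := by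
      have h3 : 4 * (N * b * b) ≤ (2 * (N * b) + 1) * (2 * b + 1) := by nlinarith
      calc 4 * (k * (N * b * b)) = k * (4 * (N * b * b)) := by ring
        _ ≤ k * ((2 * (N * b) + 1) * (2 * b + 1)) := Nat.mul_le_mul_left _ h3
        _ ≤ 7 * q := hk
    have hk3 : (4 : ℤ) * (k * (N * b * b)) ≤ 7 * q := by exact_mod_cast hk2
    have hbq' : (b : ℤ) ≤ q := by exact_mod_cast hbq
    have hb' : (0 : ℤ) ≤ b := by positivity
    have hg : |1 + (N : ℤ) * p.2| ≤ 1 + k * (N * b) := by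
      calc |1 + (N : ℤ) * p.2| ≤ |1| + |(N : ℤ) * p.2| := abs_add_le _ _
        _ = 1 + N * |p.2| := by rw [abs_one, abs_mul, Nat.abs_cast]
        _ ≤ 1 + N * (k * b) := by
            have := hp.2
            push_cast at this
            have hN0 : (0 : ℤ) ≤ N := by positivity
            nlinarith
        _ = 1 + k * (N * b) := by ring
    have hf : |p.1| ≤ 1 + k * (N * b) := by
      have := hp.1
      push_cast at this
      linarith
    have hmax : max |p.1| |1 + (N : ℤ) * p.2| ≤ 1 + k * (N * b) := max_le hf hg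
    calc (b : ℤ) * max |p.1| |1 + (N : ℤ) * p.2| ≤ b * (1 + k * (N * b)) :=
          mul_le_mul_of_nonneg_left hmax hb'
      _ = b + k * (N * b * b) := by ring
      _ ≤ 3 * q := by linarith

end Q224.NAdic
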