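import Pool.Agent.Q224.NAdic.Upper1

/-!
# Counting the residues with a short vector
-/

set_option autoImplicit false

namespace Q224.NAdic

open Finset

open scoped Classical in
/-- The residues `A` with `|h A - m j| ≤ 2 b`. -/
noncomputable def T (q m b h j : ℕ) : Finset ℕ :=
  (range q).filter fun A => |(h : ℤ) * A - m * j| ≤ 2 * b

theorem card_T {q m b h j : ℕ} (hh : 1 ≤ h) : (T q m b h j).card ≤ 4 * b / h + 1 := by
  classical
  rcases (T q m b h j).eq_empty_or_nonempty with he | hne
  · rw [he]; simp
  · set x := (T q m b h j).min' hne with hx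
    have hxm : x ∈ T q m b h j := Finset.min'_mem _ _
    have hsub : T q m b h j ⊆ Finset.Icc x (x + 4 * b / h) := by
      intro y hy
      have hxy : x ≤ y := Finset.min'_le _ _ hy
      rw [Finset.mem_Icc]
      refine ⟨hxy, ?_⟩
      rw [T, Finset.mem_filter] at hxm hy
      have h1 := abs_le.mp hxm.2
      have h2 := abs_le.mp hy.2
      obtain ⟨d, rfl⟩ := Nat.exists_eq_add_of_le hxy
      have h3 : (h : ℤ) * d ≤ 4 * b := by
        push_cast at h2
        nlinarith [h1.1, h2.2]
      have h4 : d * h ≤ 4 * b := by
        have : h * d ≤ 4 * b := by exact_mod_cast h3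
        linarith [mul_comm h d]
      have h5 : d ≤ 4 * b / h := (Nat.le_div_iff_mul_le hh).mpr h4
      omega
    calc (T q m b h j).card ≤ (Finset.Icc x (x + 4 * b / h)).card := Finset.card_le_card hsub
      _ = 4 * b / h + 1 := by rw [Nat.card_Icc, Nat.add_assoc, Nat.add_sub_cancel_left]

open scoped Classical in
theorem card_bad {N n b : ℕ} (hN : 2 ≤ N) (hn : 1 ≤ n) (hb : 1 ≤ b) :
    ((range (N ^ n)).filter fun A : ℕ => Bad N (N ^ n) A b).card ≤ 22 * N * b ^ 2 := by
  obtain ⟨n, rfl⟩ := Nat.exists_eq_add_of_le' hn
  set m := N ^ n with hm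
  have hq : N ^ (n + 1) = N * m := by rw [pow_succ, mul_comm]
  rw [hq]
  rcases Nat.lt_or_ge (2 * b) m with hbm | hbm
  · -- main case
    have hsub : ((range (N * m)).filter fun A : ℕ => Bad N (N * m) A b) ⊆
        (Finset.Icc 1 (2 * b)).biUnion fun h => (range (h * N + 1)).biUnion fun j =>
          T (N * m) m b h j := by
      intro A hA
      rw [Finset.mem_filter, Finset.mem_range] at hA
      obtain ⟨hAq, f, h, hne, hf, hh, hd⟩ := hA
      have hN0 : (0 : ℤ) < N := by exact_mod_cast (by omega : 0 < N)
      -- `f` is divisible by `N`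
      obtain ⟨c, hc⟩ := hd
      push_cast at hc
      obtain ⟨f', rfl⟩ : ∃ f', f = N * f' := ⟨m * c + h * A, by linarith⟩
      have hc' : f' - h * A = m * c := by
        have : (N : ℤ) * (f' - h * A) = N * (m * c) := by linarith
        exact mul_left_cancel₀ hN0.ne' this
      have hf' : |f'| ≤ 2 * b := by
        rw [abs_mul, Nat.abs_cast] at hf
        have : (N : ℤ) * |f'| ≤ N * (2 * b) := by linarith
        exact le_of_mul_le_mul_left this hN0
      have hne' : h ≠ 0 := by
        rintro rfl
        rw [zero_mul, sub_zero] at hc'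
        have h1 : f' = 0 := by
          apply Int.eq_zero_of_abs_lt_dvd (m := (m : ℤ)) ⟨c, hc'⟩
          have : (2 * b : ℤ) < m := by exact_mod_cast hbm
          linarith
        rw [h1] at hne
        simp at hne
      -- the main claim
      have key : ∀ h j f' : ℤ, 0 < h → |h| ≤ 2 * b → |f'| ≤ 2 * b → h * A - f' = m * j →
          A ∈ (Finset.Icc 1 (2 * b)).biUnion fun h => (range (h * N + 1)).biUnion fun j =>
            T (N * m) m b h j := by
        intro h j f' h0 hh hf' e
        obtain ⟨h, rfl⟩ := Int.eq_ofNat_of_zero_le h0.le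
        rw [Nat.abs_cast] at hh
        have hbm' : (2 * b : ℤ) < m := by exact_mod_cast hbm
        have hAq' : (A : ℤ) < N * m := by exact_mod_cast hAq
        have hm0 : (0 : ℤ) < m := by positivity
        have hf2 := abs_le.mp hf'
        have hj0 : 0 ≤ j := by
          by_contra hcon
          push Not at hcon
          have h1 : (m : ℤ) * j ≤ -m := by nlinarith
          have h2 : (0 : ℤ) ≤ h * A := by positivity
          linarith [hf2.2]
        obtain ⟨j, rfl⟩ := Int.eq_ofNat_of_zero_le hj0
        rw [Finset.mem_biUnion]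
        refine ⟨h, Finset.mem_Icc.mpr ⟨by exact_mod_cast h0, by exact_mod_cast hh⟩, ?_⟩
        rw [Finset.mem_biUnion]
        refine ⟨j, ?_, ?_⟩
        · rw [Finset.mem_range]
          have h1 : (m : ℤ) * j < m * (h * N + 1) := by
            have h3 : (h : ℤ) * A ≤ h * (N * m) := mul_le_mul_of_nonneg_left hAq'.le (by positivity)
            nlinarith [hf2.1]
          have h2 : (j : ℤ) < h * N + 1 := lt_of_mul_lt_mul_left h1 hm0.le
          exact_mod_cast h2
        · rw [T, Finset.mem_filter, Finset.mem_range]
          refine ⟨hAq, ?_⟩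
          have e2 : (h : ℤ) * A - m * j = f' := by linarith
          rw [e2]
          exact hf'
      rcases lt_or_gt_of_ne hne' with hlt | hgt
      · exact key (-h) c (-f') (by omega) (by rwa [abs_neg]) (by rwa [abs_neg]) (by linarith)
      · exact key h (-c) f' hgt hh hf' (by linarith)
    calc ((range (N * m)).filter fun A : ℕ => Bad N (N * m) A b).card
        ≤ ((Finset.Icc 1 (2 * b)).biUnion fun h => (range (h * N + 1)).biUnion fun j =>
          T (N * m) m b h j).card := Finset.card_le_card hsub
      _ ≤ ∑ h ∈ Finset.Icc 1 (2 * b), ((range (h * N + 1)).biUnion fun j =>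
          T (N * m) m b h j).card := Finset.card_biUnion_le
      _ ≤ ∑ h ∈ Finset.Icc 1 (2 * b), 11 * N * b := by
          apply Finset.sum_le_sum
          intro h hh
          rw [Finset.mem_Icc] at hh
          calc ((range (h * N + 1)).biUnion fun j => T (N * m) m b h j).card
              ≤ ∑ j ∈ range (h * N + 1), (T (N * m) m b h j).card := Finset.card_biUnion_le
            _ ≤ ∑ j ∈ range (h * N + 1), (4 * b / h + 1) :=
                Finset.sum_le_sum fun j _ => card_T hh.1
            _ = (h * N + 1) * (4 * b / h + 1) := by simp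
            _ ≤ 11 * N * b := by
                have h1 : h * (4 * b / h) ≤ 4 * b := Nat.mul_div_le _ _
                have h2 : 4 * b / h ≤ 4 * b := Nat.div_le_self _ _
                have h3 : N * (h * (4 * b / h)) ≤ N * (4 * b) := Nat.mul_le_mul_left _ h1
                have h4 : h * N ≤ 2 * b * N := Nat.mul_le_mul_right _ hh.2
                have h5 : 2 * b ≤ N * b := Nat.mul_le_mul_right _ hN
                nlinarith
      _ = (2 * b) * (11 * N * b) := by simp
      _ = 22 * N * b ^ 2 := by ring
  · calc ((range (N * m)).filter fun A : ℕ => Bad N (N * m) A b).card ≤ (range (N * m)).card :=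
          Finset.card_filter_le _ _
      _ = N * m := Finset.card_range _
      _ ≤ N * (2 * b) := Nat.mul_le_mul_left _ hbm
      _ ≤ 22 * N * b ^ 2 := by
          have h1 : N * b ≤ N * b * b := Nat.le_mul_of_pos_right _ hb
          have h2 : 22 * N * b ^ 2 = 22 * (N * b * b) := by ring
          have h3 : N * (2 * b) = 2 * (N * b) := by ring
          omega

end Q224.NAdic
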