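import Pool.Agent.Q224.NAdic.Upper2
import Pool.Agent.Q224.NAdic.Lower

/-!
# The upper bound
-/

set_option autoImplicit false

namespace Q224.NAdic

open Finset

variable {N : ℕ}

open scoped Classical in
/-- The largest `b ≤ X` without a short vector. -/
noncomputable def r (X : ℕ) {n : ℕ} (a : Fin n → Fin N) : ℕ :=
  Nat.findGreatest (fun b => b = 0 ∨ ¬ Bad N (N ^ n) (num a) b) X

open scoped Classical in
theorem r_spec (X : ℕ) {n : ℕ} (a : Fin n → Fin N) :
    r X a = 0 ∨ ¬ Bad N (N ^ n) (num a) (r X a) :=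
  Nat.findGreatest_spec (P := fun b => b = 0 ∨ ¬ Bad N (N ^ n) (num a) b) (Nat.zero_le X)
    (Or.inl rfl)

open scoped Classical in
theorem r_le (X : ℕ) {n : ℕ} (a : Fin n → Fin N) : r X a ≤ X :=
  Nat.findGreatest_le X

open scoped Classical in
theorem bad_of_r_lt {X : ℕ} {n : ℕ} {a : Fin n → Fin N} {b : ℕ} (h : r X a < b) (hb : b ≤ X) :
    Bad N (N ^ n) (num a) b := by
  by_contra hcon
  exact Nat.findGreatest_is_greatest h hb (Or.inr hcon)

theorem log_M_le (hN : 2 ≤ N) {n X : ℕ} (hX : X ≤ N ^ n) (a : Fin n → Fin N) :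
    Real.log (M a) ≤ Real.log (3 * (N : ℝ) ^ n) - Real.log ((max (r X a) 1 : ℕ) : ℝ) := by
  have hN0 : (0 : ℝ) < N := by exact_mod_cast (by omega : 0 < N)
  have hM : (0 : ℝ) < M a := by exact_mod_cast one_le_M a
  have key : ∀ b : ℕ, 1 ≤ b → (b : ℤ) * M a ≤ 3 * (N : ℤ) ^ n →
      Real.log (M a) ≤ Real.log (3 * (N : ℝ) ^ n) - Real.log (b : ℝ) := by
    intro b hb h
    have hb' : (0 : ℝ) < b := by exact_mod_cast hb
    have h1 : (b : ℝ) * M a ≤ 3 * (N : ℝ) ^ n := by exact_mod_cast h
    have h2 := Real.log_le_log (by positivity) h1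
    rw [Real.log_mul hb'.ne' hM.ne'] at h2
    linarith
  rcases Nat.eq_zero_or_pos (r X a) with h0 | hpos
  · rw [h0]
    apply key 1 le_rfl
    have h1 := M_le a (f := num a) (g := 1) one_ne_zero isCoprime_one_left (by simp)
    have h2 := num_nonneg a
    have h3 := num_lt a
    rw [abs_of_nonneg h2, abs_one] at h1
    have h4 : (1 : ℤ) ≤ (N : ℤ) ^ n := by
      have := Nat.one_le_pow n N (by omega)
      exact_mod_cast this
    have h5 : max (num a) 1 ≤ (N : ℤ) ^ n := max_le h3.le h4
    push_cast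
    linarith
  · have hbad := (r_spec X a).resolve_left hpos.ne'
    obtain ⟨f, g, hg0, hg, hd, hle⟩ := cover hN hpos ((r_le X a).trans hX) hbad
    have h1 := M_le a hg0 hg hd
    have : max (r X a) 1 = r X a := max_eq_left hpos
    rw [this]
    apply key _ hpos
    calc (r X a : ℤ) * M a ≤ (r X a : ℤ) * max |f| |g| :=
          mul_le_mul_of_nonneg_left h1 (by positivity)
      _ ≤ _ := hle

theorem card_r_le (hN : 2 ≤ N) {n X T : ℕ} (hn : 1 ≤ n) (hT : T ∈ Ico 1 X) :
    ((univ : Finset (Fin n → Fin N)).filter (fun a => max (r X a) 1 ≤ T)).card ≤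
      88 * N * T ^ 2 := by
  classical
  rw [Finset.mem_Ico] at hT
  have h1 : ((univ : Finset (Fin n → Fin N)).filter (fun a => max (r X a) 1 ≤ T)).card ≤
      ((range (N ^ n)).filter fun A : ℕ => Bad N (N ^ n) A (T + 1)).card := by
    apply Finset.card_le_card_of_injOn (fun a => (num a).toNat)
    · intro a ha
      rw [Finset.mem_coe, Finset.mem_filter] at ha
      have h2 : r X a < T + 1 := by
        have := (le_max_left (r X a) 1).trans ha.2
        omega
      have h3 := bad_of_r_lt h2 (by omega)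
      have h4 := num_nonneg a
      have h5 := num_lt a
      rw [Finset.mem_coe, Finset.mem_filter, Finset.mem_range]
      refine ⟨?_, ?_⟩
      · have : ((num a).toNat : ℤ) < ((N ^ n : ℕ) : ℤ) := by
          rw [Int.toNat_of_nonneg h4]
          push_cast
          exact h5
        exact_mod_cast this
      · rw [Int.toNat_of_nonneg h4]
        exact h3
    · intro a _ a' _ h
      apply num_injective
      have h4 := num_nonneg a
      have h5 := num_nonneg a'
      have h6 : (num a).toNat = (num a').toNat := h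
      omega
  refine h1.trans ((card_bad hN hn (by omega)).trans ?_)
  have h2 : (T + 1) ^ 2 ≤ 4 * T ^ 2 := by nlinarith [hT.1]
  calc 22 * N * (T + 1) ^ 2 ≤ 22 * N * (4 * T ^ 2) := Nat.mul_le_mul_left _ h2
    _ = 88 * N * T ^ 2 := by ring

theorem sum_log_M_le (hN : 2 ≤ N) (n : ℕ) :
    ∑ a : Fin n → Fin N, Real.log (M a) ≤
      (N : ℝ) ^ n * ((n : ℝ) * Real.log N / 2 + Real.log N / 2 + Real.log 6 + 88) := by
  have hN1 : (1 : ℝ) ≤ N := by exact_mod_cast (by omega : 1 ≤ N)
  have hlogN : 0 ≤ Real.log N := Real.log_nonneg hN1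
  rcases Nat.eq_zero_or_pos n with rfl | hn
  · have h0 : ∀ a : Fin 0 → Fin N, Real.log (M a) = 0 := by
      intro a
      have h1 := M_le a (f := 0) (g := 1) one_ne_zero isCoprime_one_left (by simp)
      have h2 := one_le_M a
      have h3 : M a = 1 := by
        have : (M a : ℤ) ≤ 1 := by simpa using h1
        omega
      rw [h3]
      simp
    rw [Finset.sum_congr rfl fun a _ => h0 a]
    have : 0 ≤ Real.log 6 := Real.log_nonneg (by norm_num)
    simp only [sum_const_zero, pow_zero, one_mul]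
    push_cast
    linarith
  · obtain ⟨k, rfl⟩ := Nat.exists_eq_add_of_le' hn
    have hq : 1 ≤ N ^ k := Nat.one_le_pow _ _ (by omega)
    obtain ⟨hX, hlog⟩ := sqrt_bound (N ^ k) hq
    set X := Nat.sqrt (N ^ k) with hXdef
    have hXle : X ≤ N ^ (k + 1) := by
      calc X ≤ N ^ k := Nat.sqrt_le_self _
        _ ≤ N ^ (k + 1) := Nat.pow_le_pow_right (by omega) (Nat.le_succ k)
    have h1 := sum_log_ge (univ : Finset (Fin (k + 1) → Fin N)) (fun a => max (r X a) 1)
      (fun a _ => le_max_right _ _) X hX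
      (fun T => 88 * N * (T : ℝ) ^ 2) (by
        intro T hT
        exact_mod_cast card_r_le hN hn hT)
    have h2 : ∑ T ∈ Ico 1 X, 88 * N * (T : ℝ) ^ 2 / T ≤ 88 * (N : ℝ) ^ (k + 1) := by
      calc ∑ T ∈ Ico 1 X, 88 * N * (T : ℝ) ^ 2 / T ≤ ∑ T ∈ Ico 1 X, 88 * N * (X : ℝ) := by
            apply Finset.sum_le_sum
            intro T hT
            rw [Finset.mem_Ico] at hT
            have hT0 : (0 : ℝ) < T := by exact_mod_cast hT.1
            have hTX : (T : ℝ) ≤ X := by exact_mod_cast hT.2.le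
            rw [div_le_iff₀ hT0]
            have h3 : (T : ℝ) ^ 2 ≤ X * T := by nlinarith
            nlinarith
        _ = ((X - 1 : ℕ) : ℝ) * (88 * N * X) := by rw [Finset.sum_const, Nat.card_Ico, nsmul_eq_mul]
        _ ≤ (X : ℝ) * (88 * N * X) := by
            apply mul_le_mul_of_nonneg_right _ (by positivity)
            exact_mod_cast Nat.sub_le X 1
        _ = 88 * N * ((X * X : ℕ) : ℝ) := by push_cast; ring
        _ ≤ 88 * N * ((N ^ k : ℕ) : ℝ) := by
            apply mul_le_mul_of_nonneg_left _ (by positivity)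
            exact_mod_cast Nat.sqrt_le (N ^ k)
        _ = 88 * (N : ℝ) ^ (k + 1) := by push_cast; ring
    rw [Finset.sum_sub_distrib, Finset.sum_const, Finset.card_univ, Fintype.card_fun,
      Fintype.card_fin, Fintype.card_fin, nsmul_eq_mul] at h1
    have h3 : ∑ a : Fin (k + 1) → Fin N, Real.log (M a) ≤
        ∑ a : Fin (k + 1) → Fin N, (Real.log (3 * (N : ℝ) ^ (k + 1)) -
          Real.log ((max (r X a) 1 : ℕ) : ℝ)) :=
      Finset.sum_le_sum fun a _ => log_M_le hN hXle a
    rw [Finset.sum_sub_distrib, Finset.sum_const, Finset.card_univ, Fintype.card_fun,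
      Fintype.card_fin, Fintype.card_fin, nsmul_eq_mul] at h3
    have hlog2 : Real.log ((N ^ k : ℕ) : ℝ) = k * Real.log N := by
      push_cast
      rw [Real.log_pow]
    rw [hlog2] at hlog
    have hlog3 : Real.log (3 * (N : ℝ) ^ (k + 1)) = Real.log 3 + (k + 1) * Real.log N := by
      rw [Real.log_mul (by norm_num) (by positivity), Real.log_pow]
      push_cast
      ring
    rw [hlog3] at h3
    have hlog6 : Real.log 6 = Real.log 3 + Real.log 2 := by
      rw [← Real.log_mul (by norm_num) (by norm_num)]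
      norm_num
    have hq' : (0 : ℝ) ≤ (N : ℝ) ^ (k + 1) := by positivity
    have h4 := mul_le_mul_of_nonneg_left hlog hq'
    push_cast at h1 h3 ⊢
    rw [hlog6]
    nlinarith

end Q224.NAdic
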